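import Mathlib
import Pool.Agent.Lib.helper12.PM12

set_option autoImplicit false

open Finset Pool.Agent.Lib.helper12.PM12

namespace Pool.Agent.Results.MP_5a4a69_co.Full

/-- A perfect matching of the complete graph on `V`, given by the map sending each vertex to its
partner (a fixed-point-free involution). -/
def IsPM {V : Type} (m : V → V) : Prop := ∀ x, m x ≠ x ∧ m (m x) = x

/-- `(n-3,1,1,1)`-factorisation of `K_(2n)` of index `c`. -/
def IsFact (n c : ℕ) (D : Finset (Fin (2 * n) → Fin (2 * n))) : Prop :=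
  D.Nonempty ∧ (∀ m ∈ D, IsPM m) ∧ 0 < c ∧ ∀ a b a' b' a'' b'' : Fin (2 * n),
    [a, b, a', b', a'', b''].Nodup → #{m ∈ D | m a = b ∧ m a' = b' ∧ m a'' = b''} = c

lemma pm {k : ℕ} (h : good k) :
    (∀ i < 12, dg k i < 12 ∧ dg k i ≠ i ∧ dg k (dg k i) = i) ∧ k < 16 ^ 12 := by
  simp only [good, Bool.and_eq_true, Nat.blt_eq, List.all_eq_true, Nat.beq_eq, Bool.not_eq_true',
    ← Bool.not_eq_true] at h
  exact ⟨fun i hi => and_assoc.1 (h.2 i (by simp; omega)), h.1⟩

lemma val {k : ℕ} (h : good k) (i : Fin 12) : (fn k i : ℕ) = dg k i :=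
  Nat.mod_eq_of_lt ((pm h).1 i i.2).1

lemma dig : ∀ n a b : ℕ, a < 16 ^ n → b < 16 ^ n →
    (∀ i < n, a / 16 ^ i % 16 = b / 16 ^ i % 16) → a = b
  | 0, a, b, x, y, _ => by omega
  | n + 1, a, b, x, y, h => by
    have := dig n (a / 16) (b / 16) (by omega) (by omega) fun i hi => by
      simpa only [Nat.div_div_eq_div_mul, ← pow_succ'] using h (i + 1) (by omega)
    have := h 0 (by omega)
    omega

lemma inj {a b : ℕ} (ha : good a) (hb : good b) (e : fn a = fn b) : a = b :=
  dig 12 a b (pm ha).2 (pm hb).2 fun i hi => by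
    rw [show 16 ^ i = 2 ^ (4 * i) from (pow_mul 2 4 i).symm, ← Nat.shiftRight_eq_div_pow,
      ← Nat.shiftRight_eq_div_pow]
    exact (val ha ⟨i, hi⟩).symm.trans ((congrArg (fun f => (f ⟨i, hi⟩ : ℕ)) e).trans (val hb _))

lemma isPM {k : ℕ} (h : good k) : IsPM (fn k) := fun x =>
  ⟨fun e => ((pm h).1 x x.2).2.1 ((val h x).symm.trans (congrArg _ e)),
    Fin.ext (by rw [val h, val h]; exact ((pm h).1 x x.2).2.2)⟩

def N (M : List ℕ) (a b c d e f : Fin 12) : ℕ :=
  #{m ∈ (M.map fn).toFinset | m a = b ∧ m c = d ∧ m e = f}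

variable {M : List ℕ} (hg : ∀ k ∈ M, good k) (hn : M.Nodup) (hc : Chk M)

include hg hn hc in
lemma base (a b c d e f : Fin 12) (h : [a, b, c, d, e, f].Nodup) (h1 : a < b) (h2 : c < d)
    (h3 : e < f) (h4 : a < c) (h5 : c < e) : N M a b c d e f = 6 := by
  have nd : (M.map fn).Nodup := hn.map_on fun a ha b hb => inj (hg a ha) (hg b hb)
  have m := (by decide +kernel : ∀ a b : Fin 12, a < b → (a.1, b.1) ∈ E)
  simp only [Chk, List.all_eq_true, fk_eq, Bool.or_eq_true, List.append_nil] at hc
  simp [Fin.ext_iff] at h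
  have := ((hc _ (m a b h1) _ (m c d h2)).resolve_left (by simp [bad]; omega) _
    (m e f h3)).resolve_left (by simp [bad]; omega)
  rw [← Nat.eq_of_beq_eq_true this, List.countP_eq_length_filter, ← List.length_map fn,
    ← List.toFinset_card_of_nodup]
  · refine congrArg _ (Finset.ext fun g => ?_)
    simp only [mem_filter, List.mem_toFinset, List.mem_map, List.mem_filter, List.mem_reverse, has,
      Nat.beq_eq, Fin.ext_iff]
    refine ⟨fun ⟨⟨k, x, y⟩, p⟩ => ⟨k, ?_, y⟩, fun ⟨k, p, y⟩ => ⟨⟨k, p.1.1.1, y⟩, ?_⟩⟩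
    · simpa only [← y, val (hg k x), x, true_and, and_assoc] using p
    · simpa only [← y, val (hg k p.1.1.1), p.1.1.1, true_and, and_assoc] using p
  · simp only [List.filter_reverse, List.reverse_reverse, List.filter_filter]
    exact nd.sublist (List.filter_sublist.map fn)

include hg in
lemma sw (a b c d e f : Fin 12) : N M a b c d e f = N M b a c d e f :=
  congrArg _ (filter_congr fun m hm => by
    obtain ⟨k, x, rfl⟩ := List.mem_map.1 (List.mem_toFinset.1 hm)
    exact and_congr_left' ⟨fun h => h ▸ (isPM (hg k x) a).2, fun h => h ▸ (isPM (hg k x) b).2⟩)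

lemma s1 (a b c d e f : Fin 12) : N M a b c d e f = N M c d a b e f :=
  congrArg _ (filter_congr fun _ _ => and_left_comm)

lemma s2 (a b c d e f : Fin 12) : N M a b c d e f = N M a b e f c d :=
  congrArg _ (filter_congr fun _ _ => and_congr_right' and_comm)

include hg hn hc in
lemma all (a b c d e f : Fin 12) (h : [a, b, c, d, e, f].Nodup) : N M a b c d e f = 6 := by
  wlog h1 : a < b generalizing a b
  · rw [sw hg]; exact this b a (by simp at h ⊢; tauto) (by simp at h; omega)
  wlog h2 : c < d generalizing c d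
  · rw [s1, sw hg, s1]; exact this d c (by simp at h ⊢; tauto) (by simp at h; omega)
  wlog h3 : e < f generalizing e f
  · rw [s2, s1, sw hg, s1, s2]; exact this f e (by simp at h ⊢; tauto) (by simp at h; omega)
  wlog h4 : a < c generalizing a b c d
  · rw [s1]; exact this c d h2 a b h1 (by simp at h ⊢; tauto) (by simp at h; omega)
  have B := base hg hn hc
  by_cases h5 : c < e
  · exact B a b c d e f h h1 h2 h3 h4 h5
  by_cases h6 : a < e
  · rw [s2]; exact B a b e f c d (by simp at h ⊢; tauto) h1 h3 h2 h6 (by simp at h; omega)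
  · rw [s2, s1]; exact B e f a b c d (by simp at h ⊢; tauto) h3 h1 h2 (by simp at h; omega) h4

theorem result : ∃ n c : ℕ, 4 ≤ n ∧ ∃ D : Finset (Fin (2 * n) → Fin (2 * n)), IsFact n c D ∧
    ∃ m, IsPM m ∧ m ∉ D := by
  have g := L_good
  have nd := L_nd
  have ck := chk
  generalize L = M at g nd ck
  simp only [List.all_eq_true, Bool.and_eq_true] at g
  have A := all (fun k h => (g k h).1) nd ck
  have gx : good 167926363923201 := by decide +kernel
  refine ⟨6, 6, by omega, (M.map fn).toFinset, ⟨?_, fun m h => ?_, by omega, A⟩,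
    fn 167926363923201, isPM gx, fun h => ?_⟩
  · exact (card_pos.1 ((A 0 1 2 3 4 5 (by decide)).symm ▸ (by omega : 0 < 6))).mono
      (filter_subset _ _)
  · obtain ⟨k, a, rfl⟩ := List.mem_map.1 (List.mem_toFinset.1 h)
    exact isPM (g k a).1
  · obtain ⟨k, a, e⟩ := List.mem_map.1 (List.mem_toFinset.1 h)
    simpa [inj (g k a).1 gx e] using (g k a).2

end Pool.Agent.Results.MP_5a4a69_co.Full
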